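import Pool.Agent.Helper74.DG2.Part3
import Pool.Agent.Helper72.DG.Linear

/-!
# Dark islands, G3: counting the edges
-/

set_option autoImplicit false

namespace Pool.Agent.Helper74.DG2

open Pool.Agent.Helper18.RAC Complex
open Pool.Agent.Helper82.DG (rac_edges_in)

variable {V : Type*}

/-- with `rac_edges_in` -/
theorem count_le [Finite V] {H : SimpleGraph V} {f : V → ℂ} (hf : IsRAC H f) (D Z : Finset V)
    (hcov : ∀ v, v ∈ D ∨ v ∈ Z) (L : Set (Sym2 V)) {C : ℕ}
    (hdd : ∀ x ∈ D, ∀ y ∈ D, H.Adj x y → s(x, y) ∈ L)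
    (hz : ∀ v ∈ Z, {x | x ∈ D ∧ H.Adj x v}.ncard ≤ C) :
    H.edgeSet.ncard ≤ L.ncard + (6 + C) * Z.card := by
  classical
  have := Fintype.ofFinite V
  let T : V → Finset (Sym2 V) := fun v =>
    ({x | x ∈ D ∧ H.Adj x v} : Set V).toFinite.toFinset.image (fun x => s(x, v))
  have hT : ∀ v ∈ Z, (T v).card ≤ C := by
    intro v hv
    refine le_trans Finset.card_image_le ?_
    rw [← Set.ncard_eq_toFinset_card]
    exact hz v hv
  have hTm : ∀ v x, x ∈ D → H.Adj x v → s(x, v) ∈ T v := by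
    intro v x hx hxv
    refine Finset.mem_image.2 ⟨x, ?_, rfl⟩
    rw [Set.Finite.mem_toFinset]
    exact ⟨hx, hxv⟩
  have hsub : H.edgeSet ⊆ L ∪ ({e | e ∈ H.edgeSet ∧ ∀ v ∈ e, v ∈ Z} ∪
      ((Z.biUnion T : Finset (Sym2 V)) : Set (Sym2 V))) := by
    intro e
    induction e with
    | _ u v =>
      intro he
      have huv : H.Adj u v := he
      by_cases hu : u ∈ D
      · by_cases hv : v ∈ D
        · exact Or.inl (hdd u hu v hv huv)
        · right; right
          rw [Finset.mem_coe, Finset.mem_biUnion]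
          exact ⟨v, (hcov v).resolve_left hv, hTm v u hu huv⟩
      · by_cases hv : v ∈ D
        · right; right
          rw [Finset.mem_coe, Finset.mem_biUnion]
          refine ⟨u, (hcov u).resolve_left hu, ?_⟩
          rw [Sym2.eq_swap]
          exact hTm u v hv huv.symm
        · refine Or.inr (Or.inl ⟨he, ?_⟩)
          intro w hw
          rcases Sym2.mem_iff.1 hw with rfl | rfl
          · exact (hcov w).resolve_left hu
          · exact (hcov w).resolve_left hv
  have h1 := Set.ncard_le_ncard hsub (Set.toFinite _)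
  have h2 := Set.ncard_union_le L ({e | e ∈ H.edgeSet ∧ ∀ v ∈ e, v ∈ Z} ∪
      ((Z.biUnion T : Finset (Sym2 V)) : Set (Sym2 V)))
  have h3 := Set.ncard_union_le {e | e ∈ H.edgeSet ∧ ∀ v ∈ e, v ∈ Z}
      ((Z.biUnion T : Finset (Sym2 V)) : Set (Sym2 V))
  have h4 := rac_edges_in hf Z
  have h5 : ((Z.biUnion T : Finset (Sym2 V)) : Set (Sym2 V)).ncard ≤ Z.card * C := by
    rw [Set.ncard_coe_finset]
    exact Finset.card_biUnion_le_card_mul Z T C hT
  have h6 : (6 + C) * Z.card = 6 * Z.card + Z.card * C := by ring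
  omega

end Pool.Agent.Helper74.DG2
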