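import Pool.Agent.Helper74.DG2.Isle

/-!
# Dark islands, S5: the neighbours of the vertices of the islands
-/

set_option autoImplicit false

namespace Pool.Agent.Helper74.DG2

open Pool.Agent.Helper18.RAC
open Pool.Agent.Helper82.DG (NE SE NW SW Rect axis_x axis_y vert_end horz_end)

variable {V : Type*} {H : SimpleGraph V} {X Y : V → ℝ} {E F a b : ℝ} {κ : GX → V} {M : ℕ}
  {c r c' r' i j k m : ℕ} {v p p' : V} {x y x' y' : ℝ}

namespace GDraw

theorem Y_le (h : GDraw H X Y E F a b κ M) (hij : i ≤ j) (hj : j < 2 * M) :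
    Y (κ (.v (.P true i))) ≤ Y (κ (.v (.P true j))) := by
  rcases hij.eq_or_lt with h1 | h1
  · rw [h1]
  · exact (h.Y_lt h1 hj).le

theorem row_lt (h : GDraw H X Y E F a b κ M) (h1 : InR X Y κ c r x y)
    (h2 : InR X Y κ c' r' x' y') (hr : r < r') (hr' : r' < M) : y < y' := by
  have := h.Y_le (i := 2 * r + 2) (j := 2 * r') (by omega) (by omega)
  linarith [h1.2.2.2, h2.2.2.1]

theorem col_lt (h : GDraw H X Y E F a b κ M) (h1 : InR X Y κ c r x y)
    (h2 : InR X Y κ c' r' x' y') (hc : c < c') (hc' : c' < M) : x < x' := by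
  have := h.X_le (i := 2 * c + 2) (j := 2 * c') (by omega) (by omega)
  linarith [h1.2.1, h2.1]

theorem inR_col (h : GDraw H X Y E F a b κ M) (h1 : InR X Y κ c r x y)
    (h2 : InR X Y κ c' r' x' y') (hc : c < M) (hc' : c' < M) (he : x = x') : c = c' := by
  rcases lt_trichotomy c c' with g | g | g
  · exact absurd (h.col_lt h1 h2 g hc') (by rw [he]; exact lt_irrefl _)
  · exact g
  · exact absurd (h.col_lt h2 h1 g hc) (by rw [he]; exact lt_irrefl _)

theorem inR_row (h : GDraw H X Y E F a b κ M) (h1 : InR X Y κ c r x y)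
    (h2 : InR X Y κ c' r' x' y') (hr : r < M) (hr' : r' < M) (he : y = y') : r = r' := by
  rcases lt_trichotomy r r' with g | g | g
  · exact absurd (h.row_lt h1 h2 g hr') (by rw [he]; exact lt_irrefl _)
  · exact g
  · exact absurd (h.row_lt h2 h1 g hr) (by rw [he]; exact lt_irrefl _)

/-- every vertex of an island lies in its rectangle; the inward rays are used by links -/
theorem dk_inR (h : GDraw H X Y E F a b κ M) {x : GN} (hx : Dk M x) :
    ∃ k m, 1 ≤ k ∧ 1 ≤ m ∧ k + m + 3 ≤ M ∧ (x = .u k m ∨ x = .l k m) ∧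
      InR X Y κ (cc M k) (cc M m) (X (κ (.v x))) (Y (κ (.v x))) := by
  cases x with
  | u k m =>
    obtain ⟨h1, h2, h3⟩ := hx
    exact ⟨k, m, h1, h2, h3, Or.inl rfl, h.inR_u h1 h2 (by omega)⟩
  | l k m =>
    obtain ⟨h1, h2, h3⟩ := hx
    have := h.inR_lo (k := k) (m := m) (Or.inl h1) h3
    unfold GN.lo at this
    rw [if_neg (by omega), if_neg (by omega)] at this
    exact ⟨k, m, h1, h2, h3, Or.inr rfl, this⟩
  | P σ j => exact hx.elim
  | U σ j => exact hx.elim
  | C σ j ε => exact hx.elim
  | Q ε => exact hx.elim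
  | D c r => exact hx.elim

theorem ends3 (h : GDraw H X Y E F a b κ M) (hc : c + 1 < M) (hr : r + 1 < M)
    (hp : H.Adj p v) (hin : InR X Y κ c r (X p) (Y p)) :
    InR X Y κ c r (X v) (Y v) ∨ X v = X p ∨ Y v = Y p := by
  obtain ⟨h1, h2, h3, h4⟩ := hin
  have := (h.rect hc hr).through h.hd hp (s := 0) le_rfl zero_le_one
    (by linarith) (by linarith) (by linarith) (by linarith)
  exact this

theorem nbr3 (h : GDraw H X Y E F a b κ M) {x : GN} (hx : Dk M x) (hv : H.Adj (κ (.v x)) v) :
    NE X Y v ∨ SE X Y b v ∨ NW X Y a v := by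
  obtain ⟨k, m, h1, h2, h3, _, hin⟩ := h.dk_inR hx
  have hc := cc_lt (M := M) (k := k) (by omega)
  have hr := cc_lt (M := M) (k := m) (by omega)
  obtain ⟨n1, n2, n3⟩ := h.inR_NE hc hr hin
  rcases h.ends3 hc hr hv hin with g | g | g
  · exact Or.inl (h.inR_NE hc hr g)
  · rcases vert_end h.hd h.hk hv g (s := 0) le_rfl zero_le_one n1 (by linarith) (by linarith) with
      g1 | g1
    · exact Or.inl g1
    · exact Or.inr (Or.inl g1)
  · rcases horz_end h.hd h.hk hv g (s := 0) le_rfl zero_le_one n2 (by linarith) (by linarith) with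
      g1 | g1
    · exact Or.inl g1
    · exact Or.inr (Or.inr g1)

/-- the vertical link of a vertex of an island -/
theorem link_y (h : GDraw H X Y E F a b κ M) {x : GN} (hk : 1 ≤ k) (hm : 1 ≤ m)
    (hkm : k + m + 3 ≤ M) (hx : x = .u k m ∨ x = .l k m) :
    ∃ z, H.Adj (κ (.v x)) z ∧ X z = X (κ (.v x)) ∧
      (m % 2 = 1 → Y z < Y (κ (.v x))) ∧ (m % 2 = 0 → Y (κ (.v x)) < Y z) ∧
      ∃ c : GE, c.isl M ∧ s(κ (.v x), z) = s(κ (c.ends M).1, κ (c.ends M).2) := by
  rcases hx with rfl | rfl
  · -- `u k m` and `lo k (m - 1)`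
    obtain ⟨m, rfl⟩ : ∃ m', m = m' + 1 := ⟨m - 1, by omega⟩
    have hv : GE.valid M (.lk false k m) := ⟨hk, by omega⟩
    have had := h.hg.adj (.lk false k m) hv
    have e1 := h.inR_u (k := k) (m := m + 1) hk (by omega) (by omega)
    have e2 := h.inR_lo (k := k) (m := m) (Or.inl hk) (by omega)
    have c1 := cc_lt (M := M) (k := m) (by omega)
    have c2 := cc_lt (M := M) (k := m + 1) (by omega)
    refine ⟨κ (.v (.lo M k m)), had.symm, (h.X_u hk (by omega)).symm, ?_, ?_,
      .lk false k m, hv, Sym2.eq_swap⟩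
    · intro ho
      refine h.row_lt e2 e1 ?_ (by omega)
      rw [cc_odd ho]
      rcases Nat.eq_zero_or_pos m with h0 | h0
      · rw [h0, cc_zero]; omega
      · rw [cc_even h0 (by omega)]; omega
    · intro he
      refine h.row_lt e1 e2 ?_ (by omega)
      rw [cc_even (by omega) he, cc_odd (by omega)]
      omega
  · -- `l k m` and `u k (m + 1)`
    have hv : GE.valid M (.lk false k m) := ⟨hk, by omega⟩
    have had := h.hg.adj (.lk false k m) hv
    have hlo : GN.lo M k m = .l k m := by
      unfold GN.lo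
      rw [if_neg (by omega), if_neg (by omega)]
    have hlo' : GN.lo' M false k m = .l k m := hlo
    have e1 := h.inR_u (k := k) (m := m + 1) hk (by omega) (by omega)
    have e2 := h.inR_lo (k := k) (m := m) (Or.inl hk) (by omega)
    have e3 := h.X_u (k := k) (m := m) hk (by omega)
    rw [hlo] at e2 e3
    have c1 := cc_lt (M := M) (k := m) (by omega)
    have c2 : cc M (m + 1) < M := by
      unfold cc
      split_ifs <;> omega
    simp only [GE.ends, hlo'] at had
    refine ⟨κ (.v (.u k (m + 1))), had, e3, ?_, ?_, .lk false k m, hv, ?_⟩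
    · intro ho
      refine h.row_lt e1 e2 ?_ (by omega)
      rw [cc_odd ho, cc_even (by omega) (by omega)]
      omega
    · intro he
      refine h.row_lt e2 e1 ?_ c2
      rw [cc_even hm he, cc_odd (by omega)]
      omega
    · simp only [GE.ends, hlo']
      rfl

theorem isl_swap {c : GE} (hc : c.isl M) : c.swap.isl M := by
  cases c with
  | ul k m =>
    obtain ⟨h1, h2, h3⟩ := hc
    exact ⟨h2, h1, by omega⟩
  | lk σ k m => exact hc
  | _ => exact hc.elim

theorem isl_valid {c : GE} (hc : c.isl M) : c.valid M := by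
  cases c with
  | ul k m => exact hc
  | lk σ k m => exact hc
  | _ => exact hc.elim

/-- a code for the exchanged grid gives a code for the grid -/
theorem code_swap {p q : V}
    (h : ∃ c : GE, c.isl M ∧ s(p, q) = s(κ (c.ends M).1.swap, κ (c.ends M).2.swap)) :
    ∃ c : GE, c.isl M ∧ s(p, q) = s(κ (c.ends M).1, κ (c.ends M).2) := by
  obtain ⟨c, hc, he⟩ := h
  refine ⟨c.swap, isl_swap hc, ?_⟩
  rw [he]
  have := congrArg (Sym2.map κ) (GE.ends_swap M c (isl_valid hc))
  simpa using this.symm

theorem dk_swap {x : GN} (hx : Dk M x) : Dk M x.swap := by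
  cases x with
  | u k m =>
    obtain ⟨h1, h2, h3⟩ := hx
    exact ⟨h2, h1, by omega⟩
  | l k m =>
    obtain ⟨h1, h2, h3⟩ := hx
    exact ⟨h2, h1, by omega⟩
  | _ => exact hx.elim

theorem dk_ok {x : GN} (hx : Dk M x) : x.ok M := by
  cases x with
  | u k m =>
    obtain ⟨h1, h2, h3⟩ := hx
    exact ⟨h1, h2, by omega⟩
  | l k m => exact hx
  | _ => exact hx.elim

/-- partners -/
theorem dd_same (h : GDraw H X Y E F a b κ M) {x y : GN} (hk : 1 ≤ k) (hm : 1 ≤ m)
    (hkm : k + m + 3 ≤ M) (hx : x = .u k m ∨ x = .l k m) (hy : y = .u k m ∨ y = .l k m)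
    (hxy : H.Adj (κ (.v x)) (κ (.v y))) :
    ∃ c : GE, c.isl M ∧ s(κ (.v x), κ (.v y)) = s(κ (c.ends M).1, κ (c.ends M).2) := by
  have _ := h.hg
  rcases hx with rfl | rfl <;> rcases hy with rfl | rfl
  · exact absurd hxy H.irrefl
  · exact ⟨.ul k m, ⟨hk, hm, hkm⟩, rfl⟩
  · exact ⟨.ul k m, ⟨hk, hm, hkm⟩, Sym2.eq_swap⟩
  · exact absurd hxy H.irrefl

/-- aligned vertices of islands -/
theorem dd_vert (h : GDraw H X Y E F a b κ M) {x y : GN} (hx : Dk M x) (hy : Dk M y)
    (hxy : H.Adj (κ (.v x)) (κ (.v y))) (hX : X (κ (.v y)) = X (κ (.v x))) :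
    ∃ c : GE, c.isl M ∧ s(κ (.v x), κ (.v y)) = s(κ (c.ends M).1, κ (c.ends M).2) := by
  obtain ⟨k, m, hk, hm, hkm, ex, ix⟩ := h.dk_inR hx
  obtain ⟨k', m', hk', hm', hkm', ey, iy⟩ := h.dk_inR hy
  have c1 := cc_lt (M := M) (k := k) (by omega)
  have c2 := cc_lt (M := M) (k := k') (by omega)
  have c3 := cc_lt (M := M) (k := m) (by omega)
  have c4 := cc_lt (M := M) (k := m') (by omega)
  have e1 : k = k' := cc_inj (by omega) (by omega)
    (h.inR_col ix iy (by omega) (by omega) hX.symm)
  subst e1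
  by_cases hmm : m = m'
  · subst hmm
    exact h.dd_same hk hm hkm ex ey hxy
  · have hcc : cc M m ≠ cc M m' := fun hh => hmm (cc_inj (by omega) (by omega) hh)
    obtain ⟨z, z1, z2, z3, z4, z5⟩ := h.link_y hk hm hkm ex
    obtain ⟨w, w1, w2, w3, w4, w5⟩ := h.link_y hk hm' hkm' ey
    have hyz : κ (.v y) = z → ∃ c : GE, c.isl M ∧
        s(κ (.v x), κ (.v y)) = s(κ (c.ends M).1, κ (c.ends M).2) := by
      rintro rfl
      exact z5
    have hxw : κ (.v x) = w → ∃ c : GE, c.isl M ∧
        s(κ (.v x), κ (.v y)) = s(κ (c.ends M).1, κ (c.ends M).2) := by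
      rintro rfl
      rw [Sym2.eq_swap]
      exact w5
    rcases Nat.mod_two_eq_zero_or_one m with ho | ho
    · -- `x` is below the middle
      have z4' := z4 ho
      rcases lt_or_gt_of_ne hcc with g | g
      · exact hyz (axis_y h.hd hxy z1 hX z2 (Or.inl ⟨h.row_lt ix iy g (by omega), z4'⟩))
      · have ho' : m' % 2 = 0 := by
          by_contra hodd
          rw [cc_even hm ho, cc_odd (by omega)] at g
          omega
        exact hxw (axis_y h.hd hxy.symm w1 hX.symm w2
          (Or.inl ⟨h.row_lt iy ix g (by omega), w4 ho'⟩))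
    · have z3' := z3 ho
      rcases lt_or_gt_of_ne hcc with g | g
      · have ho' : m' % 2 = 1 := by
          by_contra hodd
          rw [cc_odd ho, cc_even hm' (by omega)] at g
          omega
        exact hxw (axis_y h.hd hxy.symm w1 hX.symm w2
          (Or.inr ⟨h.row_lt ix iy g (by omega), w3 ho'⟩))
      · exact hyz (axis_y h.hd hxy z1 hX z2 (Or.inr ⟨h.row_lt iy ix g (by omega), z3'⟩))

/-- two adjacent vertices of islands: partners or joined by a link.  If they are aligned, one of
them is on the inward ray of the other one, which is used by a link. -/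
theorem dd (h : GDraw H X Y E F a b κ M) {x y : GN} (hx : Dk M x) (hy : Dk M y)
    (hxy : H.Adj (κ (.v x)) (κ (.v y))) :
    ∃ c : GE, c.isl M ∧ s(κ (.v x), κ (.v y)) = s(κ (c.ends M).1, κ (c.ends M).2) := by
  obtain ⟨k, m, hk, hm, hkm, ex, ix⟩ := h.dk_inR hx
  obtain ⟨k', m', hk', hm', hkm', ey, iy⟩ := h.dk_inR hy
  have c1 := cc_lt (M := M) (k := k) (by omega)
  have c2 := cc_lt (M := M) (k := k') (by omega)
  have c3 := cc_lt (M := M) (k := m) (by omega)
  have c4 := cc_lt (M := M) (k := m') (by omega)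
  rcases h.ends3 c1 c3 hxy ix with g | g | g
  · have e1 : k = k' := cc_inj (by omega) (by omega) (h.inR_col g iy (by omega) (by omega) rfl)
    have e2 : m = m' := cc_inj (by omega) (by omega) (h.inR_row g iy (by omega) (by omega) rfl)
    subst e1
    subst e2
    exact h.dd_same hk hm hkm ex ey hxy
  · exact h.dd_vert hx hy hxy g
  · have hs := h.swap
    have e1 : κ (.v x) = κ (GX.v x.swap).swap := by rw [GX.swap, GN.swap_swap]
    have e2 : κ (.v y) = κ (GX.v y.swap).swap := by rw [GX.swap, GN.swap_swap]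
    rw [e1, e2]
    apply code_swap
    refine hs.dd_vert (dk_swap hx) (dk_swap hy) ?_ ?_
    · rw [← e1, ← e2]; exact hxy
    · rw [← e1, ← e2]; exact g

open Classical in
/-- the kinds of a neighbour: in the same rectangle (`u` or `l`), up, down, left, right -/
theorem cnt (h : GDraw H X Y E F a b κ M) (v : V) : ∃ g : GN → Fin 6, ∀ x y, Dk M x → Dk M y →
    H.Adj (κ (.v x)) v → H.Adj (κ (.v y)) v → g x = g y → x = y := by
  let B : GN → Prop := fun x => ∃ k m, (x = .u k m ∨ x = .l k m) ∧ 1 ≤ k ∧ 1 ≤ m ∧ k + m + 3 ≤ M ∧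
    InR X Y κ (cc M k) (cc M m) (X v) (Y v)
  let U : GN → Prop := fun x => ∃ k m, x = .u k m
  let g : GN → Fin 6 := fun x =>
    if B x then (if U x then 0 else 1)
    else if X v = X (κ (.v x)) then (if Y (κ (.v x)) < Y v then 2 else 3)
    else (if X (κ (.v x)) < X v then 4 else 5)
  refine ⟨g, ?_⟩
  -- the three cases of a neighbour
  have key : ∀ x, Dk M x → H.Adj (κ (.v x)) v → B x ∨
      (X v = X (κ (.v x)) ∧ Y v ≠ Y (κ (.v x))) ∨
      (X v ≠ X (κ (.v x)) ∧ Y v = Y (κ (.v x))) := by
    intro x hx hv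
    obtain ⟨k, m, hk, hm, hkm, ex, ix⟩ := h.dk_inR hx
    have c1 := cc_lt (M := M) (k := k) (by omega)
    have c3 := cc_lt (M := M) (k := m) (by omega)
    by_cases hin : InR X Y κ (cc M k) (cc M m) (X v) (Y v)
    · exact Or.inl ⟨k, m, ex, hk, hm, hkm, hin⟩
    · right
      rcases h.ends3 c1 c3 hv ix with g | g | g
      · exact absurd g hin
      · refine Or.inl ⟨g, fun hY => hin ?_⟩
        rw [g, hY]
        exact ix
      · refine Or.inr ⟨fun hX => hin ?_, g⟩
        rw [g, hX]
        exact ix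
  intro x y hx hy hvx hvy hg
  have hinj : κ (.v x) = κ (.v y) → x = y := h.hg.inj x y (dk_ok hx) (dk_ok hy)
  by_cases bx : B x
  · by_cases by' : B y
    · obtain ⟨k, m, ex, hk, hm, hkm, ix⟩ := bx
      obtain ⟨k', m', ey, hk', hm', hkm', iy⟩ := by'
      have c1 := cc_lt (M := M) (k := k) (by omega)
      have c2 := cc_lt (M := M) (k := k') (by omega)
      have c3 := cc_lt (M := M) (k := m) (by omega)
      have c4 := cc_lt (M := M) (k := m') (by omega)
      have e1 : k = k' := cc_inj (by omega) (by omega)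
        (h.inR_col ix iy (by omega) (by omega) rfl)
      have e2 : m = m' := cc_inj (by omega) (by omega)
        (h.inR_row ix iy (by omega) (by omega) rfl)
      subst e1
      subst e2
      have bx : B x := ⟨k, m, ex, hk, hm, hkm, ix⟩
      have by' : B y := ⟨k, m, ey, hk, hm, hkm, iy⟩
      have gx : g x = if U x then 0 else 1 := if_pos bx
      have gy : g y = if U y then 0 else 1 := if_pos by'
      rw [gx, gy] at hg
      rcases ex with rfl | rfl <;> rcases ey with rfl | rfl
      · rfl
      · exfalso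
        rw [if_pos ⟨k, m, rfl⟩, if_neg (by rintro ⟨k', m', hh⟩; cases hh)] at hg
        exact absurd hg (by decide)
      · exfalso
        rw [if_neg (by rintro ⟨k', m', hh⟩; cases hh), if_pos ⟨k, m, rfl⟩] at hg
        exact absurd hg (by decide)
      · rfl
    · exfalso
      have gx : g x = if U x then 0 else 1 := if_pos bx
      have gy : g y = if X v = X (κ (.v y)) then (if Y (κ (.v y)) < Y v then 2 else 3)
        else (if X (κ (.v y)) < X v then 4 else 5) := if_neg by'
      rw [gx, gy] at hg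
      split_ifs at hg <;> exact absurd hg (by decide)
  · by_cases by' : B y
    · exfalso
      have gy : g y = if U y then 0 else 1 := if_pos by'
      have gx : g x = if X v = X (κ (.v x)) then (if Y (κ (.v x)) < Y v then 2 else 3)
        else (if X (κ (.v x)) < X v then 4 else 5) := if_neg bx
      rw [gx, gy] at hg
      split_ifs at hg <;> exact absurd hg (by decide)
    · have gx : g x = if X v = X (κ (.v x)) then (if Y (κ (.v x)) < Y v then 2 else 3)
        else (if X (κ (.v x)) < X v then 4 else 5) := if_neg bx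
      have gy : g y = if X v = X (κ (.v y)) then (if Y (κ (.v y)) < Y v then 2 else 3)
        else (if X (κ (.v y)) < X v then 4 else 5) := if_neg by'
      rw [gx, gy] at hg
      rcases (key x hx hvx).resolve_left bx with ⟨x1, x2⟩ | ⟨x1, x2⟩ <;>
        rcases (key y hy hvy).resolve_left by' with ⟨y1, y2⟩ | ⟨y1, y2⟩
      · rw [if_pos x1, if_pos y1] at hg
        apply hinj
        rcases lt_or_gt_of_ne x2 with x3 | x3 <;> rcases lt_or_gt_of_ne y2 with y3 | y3
        · exact axis_y h.hd hvx.symm hvy.symm x1.symm y1.symm (Or.inl ⟨x3, y3⟩)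
        · rw [if_neg (by linarith), if_pos y3] at hg
          exact absurd hg (by decide)
        · rw [if_pos x3, if_neg (by linarith)] at hg
          exact absurd hg (by decide)
        · exact axis_y h.hd hvx.symm hvy.symm x1.symm y1.symm (Or.inr ⟨x3, y3⟩)
      · rw [if_pos x1, if_neg y1] at hg
        split_ifs at hg <;> exact absurd hg (by decide)
      · rw [if_neg x1, if_pos y1] at hg
        split_ifs at hg <;> exact absurd hg (by decide)
      · rw [if_neg x1, if_neg y1] at hg
        apply hinj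
        rcases lt_or_gt_of_ne x1 with x3 | x3 <;> rcases lt_or_gt_of_ne y1 with y3 | y3
        · exact axis_x h.hd hvx.symm hvy.symm x2.symm y2.symm (Or.inl ⟨x3, y3⟩)
        · rw [if_neg (by linarith), if_pos y3] at hg
          exact absurd hg (by decide)
        · rw [if_pos x3, if_neg (by linarith)] at hg
          exact absurd hg (by decide)
        · exact axis_x h.hd hvx.symm hvy.symm x2.symm y2.symm (Or.inr ⟨x3, y3⟩)

end GDraw

end Pool.Agent.Helper74.DG2
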