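import Pool.Agent.Helper49.DG2.KCell
import Pool.Agent.Helper49.DG2.Nbr2

/-!
# Dark islands, K1: a drawn grid is a good kite
-/

set_option autoImplicit false

namespace Pool.Agent.Helper74.DG2

open Pool.Agent.Helper18.RAC Complex
open Pool.Agent.Helper82.DG (NE SE NW SW Fr CoreH)

variable {V : Type*}

theorem gdraw_good {H : SimpleGraph V} {f : V → ℂ} {a b : V} {κ : GX → V} {M : ℕ}
    {X Y : ℂ → ℝ} {E F a' b' : ℝ} (hf : IsRAC H f) (hfr : Fr X Y)
    (h : GDraw H (fun v => X (f v)) (fun v => Y (f v)) E F a' b' κ M)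
    (hcore : ∀ v y, (NE (fun v => X (f v)) (fun v => Y (f v)) v ∨
          SE (fun v => X (f v)) (fun v => Y (f v)) b' v ∨
          NW (fun v => X (f v)) (fun v => Y (f v)) a' v) →
        H.Adj v y → CoreH H a b y → Cor κ y) :
    ∃ A₀ A₁ A₂, GoodK H f a b κ M A₀ A₁ A₂ := by
  refine gdraw_good_of hf hfr h hcore ?_ (fun x v hx hv => h.nbr3 hx hv)
    (fun x y hx hy hxy => h.dd hx hy hxy) (fun v => h.cnt v)
  intro x hx
  obtain ⟨k, m, h1, h2, h3, _, hin⟩ := h.dk_inR hx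
  exact h.inR_NE (cc_lt (M := M) (k := k) (by omega)) (cc_lt (M := M) (k := m) (by omega)) hin

end Pool.Agent.Helper74.DG2
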