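import Pool.Agent.Helper74.DG2.Part3
import Pool.Agent.Helper49.DG.Rects

/-!
# Dark islands, K1: the cells of a kite
-/

set_option autoImplicit false

namespace Pool.Agent.Helper74.DG2

open Pool.Agent.Helper18.RAC Complex
open Pool.Agent.Helper82.DG (NE SE NW SW Fr CoreH lt_conv conv_lt conj_comb conj_openSegment
  conj_segment)

variable {V : Type*}

theorem meets_frontier {t s : Set ℂ} (ht : IsPreconnected t) (hs : IsOpen s)
    (h1 : (t ∩ s).Nonempty) (h2 : (t ∩ sᶜ).Nonempty) : (t ∩ frontier s).Nonempty := by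
  by_contra hcon
  rw [Set.not_nonempty_iff_eq_empty] at hcon
  have h3 : t ⊆ s ∪ (closure s)ᶜ := by
    intro z hz
    by_cases hzs : z ∈ s
    · exact Or.inl hzs
    · right
      intro hzc
      have : z ∈ t ∩ frontier s := ⟨hz, by rw [hs.frontier_eq]; exact ⟨hzc, hzs⟩⟩
      rw [hcon] at this
      exact this
  obtain ⟨z, hz, hzs⟩ := h2
  have h4 : (t ∩ (closure s)ᶜ).Nonempty := by
    refine ⟨z, hz, ?_⟩
    rcases h3 hz with h | h
    · exact (hzs h).elim
    · exact h
  obtain ⟨w, _, hw1, hw2⟩ := ht s (closure s)ᶜ hs isClosed_closure.isOpen_compl h3 h1 h4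
  exact hw2 (subset_closure hw1)

/-! ### the model cell -/

/-- the model cell -/
def Tri (X Y : ℂ → ℝ) : Set ℂ := {z | 0 < X z ∧ 0 < Y z ∧ X z + Y z < 1}

theorem Tri_open {X Y : ℂ → ℝ} (h : Fr X Y) : IsOpen (Tri X Y) :=
  (isOpen_lt continuous_const h.cX).inter ((isOpen_lt continuous_const h.cY).inter
    (isOpen_lt (h.cX.add h.cY) continuous_const))

theorem Tri_convex {X Y : ℂ → ℝ} (h : Fr X Y) : Convex ℝ (Tri X Y) := by
  intro z hz z' hz' s t hs ht hst
  obtain ⟨a1, a2, a3⟩ := hz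
  obtain ⟨b1, b2, b3⟩ := hz'
  change 0 < X (s • z + t • z') ∧ 0 < Y (s • z + t • z') ∧
    X (s • z + t • z') + Y (s • z + t • z') < 1
  rw [h.aX' _ _ _ _ hst, h.aY' _ _ _ _ hst]
  refine ⟨lt_conv hs ht hst a1 b1, lt_conv hs ht hst a2 b2, ?_⟩
  have := conv_lt hs ht hst a3 b3
  linarith

theorem Tri_frontier {X Y : ℂ → ℝ} (h : Fr X Y) {z : ℂ} (hz : z ∈ frontier (Tri X Y)) :
    (0 ≤ X z ∧ 0 ≤ Y z ∧ X z + Y z ≤ 1) ∧ (X z = 0 ∨ Y z = 0 ∨ X z + Y z = 1) := by
  rw [(Tri_open h).frontier_eq] at hz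
  obtain ⟨h1, h2⟩ := hz
  have h3 : Tri X Y ⊆ {z | 0 ≤ X z ∧ 0 ≤ Y z ∧ X z + Y z ≤ 1} :=
    fun w hw => ⟨hw.1.le, hw.2.1.le, hw.2.2.le⟩
  have h4 : IsClosed {z | 0 ≤ X z ∧ 0 ≤ Y z ∧ X z + Y z ≤ 1} :=
    (isClosed_le continuous_const h.cX).inter ((isClosed_le continuous_const h.cY).inter
      (isClosed_le (h.cX.add h.cY) continuous_const))
  have h5 := closure_minimal h3 h4 h1
  refine ⟨h5, ?_⟩
  obtain ⟨a1, a2, a3⟩ := h5
  by_contra hh
  push Not at hh
  obtain ⟨c1, c2, c3⟩ := hh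
  exact h2 ⟨lt_of_le_of_ne a1 (Ne.symm c1), lt_of_le_of_ne a2 (Ne.symm c2), lt_of_le_of_ne a3 c3⟩

/-- a point of the closed triangle which is not in the open one is on the frontier -/
theorem mem_frontier_Tri {X Y : ℂ → ℝ} (h : Fr X Y) {z c : ℂ} (hc : c ∈ Tri X Y)
    (h1 : 0 ≤ X z) (h2 : 0 ≤ Y z) (h3 : X z + Y z ≤ 1) (h4 : z ∉ Tri X Y) :
    z ∈ frontier (Tri X Y) := by
  rw [(Tri_open h).frontier_eq]
  refine ⟨?_, h4⟩
  have h5 : openSegment ℝ z c ⊆ Tri X Y := by
    rintro w ⟨s, t, hs, ht, hst, rfl⟩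
    obtain ⟨c1, c2, c3⟩ := hc
    change 0 < X (s • z + t • c) ∧ 0 < Y (s • z + t • c) ∧
      X (s • z + t • c) + Y (s • z + t • c) < 1
    rw [h.aX' _ _ _ _ hst, h.aY' _ _ _ _ hst]
    have e1 := mul_pos ht c1
    have e2 := mul_pos ht c2
    have e3 := mul_nonneg hs.le h1
    have e4 := mul_nonneg hs.le h2
    have e5 := mul_le_mul_of_nonneg_left h3 hs.le
    have e6 := mul_lt_mul_of_pos_left c3 ht
    refine ⟨by linarith, by linarith, ?_⟩
    nlinarith
  have h6 := closure_mono h5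
  rw [closure_openSegment] at h6
  exact h6 (left_mem_segment ℝ z c)

theorem Fr.mk' {X Y : ℂ → ℝ} (h : Fr X Y) {p q z : ℂ} {s : ℝ} (hs : 0 ≤ s) (hs1 : s ≤ 1)
    (h1 : X z = (1 - s) * X p + s * X q) (h2 : Y z = (1 - s) * Y p + s * Y q) :
    z ∈ segment ℝ p q := by
  refine ⟨1 - s, s, by linarith, hs, by ring, ?_⟩
  apply h.inj
  · rw [h.aX, h1]
  · rw [h.aY, h2]

section

variable {H : SimpleGraph V} {f : V → ℂ} {X Y : ℂ → ℝ} {E F a b : ℝ} {u u' w w' : V}

/-- the frontier of the model cell is covered by three edges -/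
theorem Tri_fr (h : Fr X Y) (hk : KN H (fun v => X (f v)) (fun v => Y (f v)) a b u u' w w')
    {z : ℂ} (hz : z ∈ frontier (Tri X Y)) :
    z ∈ segment ℝ (f w) (f w') ∨ z ∈ segment ℝ (f u) (f u') ∨ z ∈ segment ℝ (f u) (f w) := by
  obtain ⟨⟨h1, h2, h3⟩, h4⟩ := Tri_frontier h hz
  have ha := hk.a_pos
  have hb := hk.b_pos
  have e1 := hk.Xu
  have e2 := hk.Yu
  have e3 := hk.Xu'
  have e4 := hk.Yu'
  have e5 := hk.Xw
  have e6 := hk.Yw
  have e7 := hk.Xw'
  have e8 := hk.Yw'

  rcases h4 with h4 | h4 | h4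
  · left
    refine Fr.mk' h (s := (1 - Y z) / (1 + b)) (div_nonneg (by linarith) (by linarith))
      ((div_le_one (by linarith)).2 (by linarith)) ?_ ?_
    · rw [e5, e7, h4]; ring
    · rw [e6, e8]; field_simp; ring
  · right; left
    refine Fr.mk' h (s := (1 - X z) / (1 + a)) (div_nonneg (by linarith) (by linarith))
      ((div_le_one (by linarith)).2 (by linarith)) ?_ ?_
    · rw [e1, e3]; field_simp; ring
    · rw [e2, e4, h4]; ring
  · right; right
    refine Fr.mk' h (s := Y z) h2 (by linarith) ?_ ?_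
    · rw [e1, e5]; linarith
    · rw [e2, e6]; ring

theorem not_on {H : SimpleGraph V} {f : V → ℂ} {X Y : ℂ → ℝ} {E F : ℝ} (h : Fr X Y)
    (hd : ADraw H (fun v => X (f v)) (fun v => Y (f v)) E F) {p p' v : V} (hp : H.Adj p p')
    (hv : f v ∈ segment ℝ (f p) (f p')) : v = p ∨ v = p' := by
  by_contra hh
  push Not at hh
  obtain ⟨s, t, hs, ht, hst, hz⟩ := hv
  have e : s = 1 - t := by linarith
  refine hd.vtx p p' v hp hh.1 hh.2 t ht (by linarith) ?_ ?_
  · rw [← hz, h.aX' _ _ _ _ hst, e]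
  · rw [← hz, h.aY' _ _ _ _ hst, e]

theorem Tri_fv (h : Fr X Y) (hd : ADraw H (fun v => X (f v)) (fun v => Y (f v)) E F)
    (hk : KN H (fun v => X (f v)) (fun v => Y (f v)) a b u u' w w')
    {v : V} (hz : f v ∈ frontier (Tri X Y)) : v = w ∨ v = u := by
  obtain ⟨⟨h1, h2, h3⟩, h4⟩ := Tri_frontier h hz
  have ha := hk.a_pos
  have hb := hk.b_pos
  have e3 := hk.Xu'
  have e8 := hk.Yw'

  rcases Tri_fr h hk hz with h5 | h5 | h5
  · rcases not_on h hd hk.ww' h5 with e | e
    · exact Or.inl e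
    · rw [e, e8] at h2; linarith
  · rcases not_on h hd hk.uu' h5 with e | e
    · exact Or.inr e
    · rw [e, e3] at h1; linarith
  · rcases not_on h hd hk.uw h5 with e | e
    · exact Or.inr e
    · exact Or.inl e

/-- how an edge leaves the cell -/
theorem Tri_exit (h : Fr X Y) (hd : ADraw H (fun v => X (f v)) (fun v => Y (f v)) E F)
    (hk : KN H (fun v => X (f v)) (fun v => Y (f v)) a b u u' w w') {p p' : V} (hp : H.Adj p p')
    {s t : ℝ} (hs : 0 ≤ s) (ht : 0 ≤ t) (hst : s + t = 1)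
    (hz : s • f p + t • f p' ∈ Tri X Y) (hp' : f p' ∉ Tri X Y) :
    (Y (f p') = Y (f p) ∧ X (f p') < X (f p)) ∨ (X (f p') = X (f p) ∧ Y (f p') < Y (f p)) ∨
      (E * (X (f p') - X (f p)) = F * (Y (f p') - Y (f p)) ∧
        X (f p) + Y (f p) < X (f p') + Y (f p')) ∨ p' = w ∨ p' = u := by
  have ha := hk.a_pos
  have hb := hk.b_pos
  have e1 := hk.Xu
  have e2 := hk.Yu
  have e3 := hk.Xu'
  have e4 := hk.Yu'
  have e5 := hk.Xw
  have e6 := hk.Yw
  have e7 := hk.Xw'
  have e8 := hk.Yw'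

  set z := s • f p + t • f p' with hzdef
  have hX : X z = s * X (f p) + t * X (f p') := h.aX' _ _ _ _ hst
  have hY : Y z = s * Y (f p) + t * Y (f p') := h.aY' _ _ _ _ hst
  obtain ⟨z1, hz1, hf⟩ : (segment ℝ z (f p') ∩ frontier (Tri X Y)).Nonempty := by
    exact meets_frontier (convex_segment z (f p')).isPreconnected (Tri_open h)
      ⟨z, left_mem_segment ℝ _ _, hz⟩ ⟨f p', right_mem_segment ℝ _ _, hp'⟩
  obtain ⟨s1, t1, hs1, ht1, hst1, hz1⟩ := hz1
  obtain ⟨g1, g2, g3⟩ := hz
  have hX1 : X z1 = s1 * X z + t1 * X (f p') := by rw [← hz1, h.aX' _ _ _ _ hst1]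
  have hY1 : Y z1 = s1 * Y z + t1 * Y (f p') := by rw [← hz1, h.aY' _ _ _ _ hst1]
  -- the parameter on the edge
  set r := s1 * t + t1 with hr
  have hr1 : 1 - r = s1 * s := by
    rw [hr]
    have : s = 1 - t := by linarith
    have h' : t1 = 1 - s1 := by linarith
    rw [this, h']; ring
  have hXr : X z1 = (1 - r) * X (f p) + r * X (f p') := by
    rw [hX1, hX, hr1, hr]; ring
  have hYr : Y z1 = (1 - r) * Y (f p) + r * Y (f p') := by
    rw [hY1, hY, hr1, hr]; ring
  obtain ⟨⟨k1, k2, k3⟩, k4⟩ := Tri_frontier h hf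
  -- `t1 > 0`
  have ht1' : 0 < t1 := by
    rcases ht1.eq_or_lt with e | e
    · exfalso
      have e' : s1 = 1 := by linarith
      rw [← e, e', one_mul, zero_mul, add_zero] at hX1 hY1
      rw [hX1] at k1 k3 k4
      rw [hY1] at k2 k3 k4
      rcases k4 with k4 | k4 | k4 <;> linarith
    · exact e
  have hr0 : 0 < r := by
    have := mul_nonneg hs1 ht
    linarith
  have hrle : r ≤ 1 := by
    have := mul_nonneg hs1 hs
    linarith
  rcases hrle.lt_or_eq with hrlt | hreq
  · -- an interior point of the edge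
    have hs1' : 0 < s1 := by
      rcases hs1.eq_or_lt with e | e
      · rw [← e, zero_mul] at hr1; linarith
      · exact e
    have hs' : 0 < s := by
      rcases hs.eq_or_lt with e | e
      · rw [← e, mul_zero] at hr1; linarith
      · exact e
    have hx1 : (1 - r) * X (f p) + r * X (f p') = X z1 := hXr.symm
    have hy1 : (1 - r) * Y (f p) + r * Y (f p') = Y z1 := hYr.symm
    -- `w` and `u` are not on the edge
    have ncorner : ∀ v, X (f v) = X z1 → Y (f v) = Y z1 → False := by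
      intro v hv1 hv2
      have hfv : f v = z1 := h.inj _ _ hv1 hv2
      have hseg : f v ∈ segment ℝ (f p) (f p') := by
        rw [hfv]
        exact Fr.mk' h hr0.le hrle hXr hYr
      rcases not_on h hd hp hseg with e | e
      · -- `v = p`
        subst e
        have e9 : r * (X (f p') - X (f v)) = 0 := by rw [hv1] at *; linarith
        have e10 : r * (Y (f p') - Y (f v)) = 0 := by rw [hv2] at *; linarith
        have e11 := (mul_eq_zero.1 e9).resolve_left hr0.ne'
        have e12 := (mul_eq_zero.1 e10).resolve_left hr0.ne'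
        exact hd.vtx v p' p' hp hp.ne' (fun hh => hp.ne (by
          exfalso
          have : f v = f p' := h.inj _ _ (by linarith) (by linarith)
          rw [hzdef, ← this, ← add_smul, hst, one_smul] at g1 g2 g3
          rcases k4 with k4 | k4 | k4 <;> linarith)) 0 le_rfl zero_le_one
          (by linarith) (by linarith)
      · subst e
        have e9 : (1 - r) * (X (f v) - X (f p)) = 0 := by rw [hv1] at *; linarith
        have e10 : (1 - r) * (Y (f v) - Y (f p)) = 0 := by rw [hv2] at *; linarith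
        have hr' : (1 - r) ≠ 0 := by linarith
        have e11 := (mul_eq_zero.1 e9).resolve_left hr'
        have e12 := (mul_eq_zero.1 e10).resolve_left hr'
        have : f p = f v := h.inj _ _ (by linarith) (by linarith)
        rw [hzdef, this, ← add_smul, hst, one_smul] at g1 g2 g3
        rcases k4 with k4 | k4 | k4 <;> linarith
    have signX : X z1 < X z → X (f p') < X (f p) := by
      intro hlt
      by_contra hcon
      push Not at hcon
      have : X z ≤ X (f p') := by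
        rw [hX]
        have : s * X (f p) ≤ s * X (f p') := mul_le_mul_of_nonneg_left hcon hs
        have e : s = 1 - t := by linarith
        rw [e] at this ⊢
        linarith
      have : X z ≤ X z1 := by
        rw [hX1]
        have h' := mul_le_mul_of_nonneg_left this ht1
        have e : s1 = 1 - t1 := by linarith
        rw [e]; linarith
      linarith
    have signY : Y z1 < Y z → Y (f p') < Y (f p) := by
      intro hlt
      by_contra hcon
      push Not at hcon
      have : Y z ≤ Y (f p') := by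
        rw [hY]
        have : s * Y (f p) ≤ s * Y (f p') := mul_le_mul_of_nonneg_left hcon hs
        have e : s = 1 - t := by linarith
        rw [e] at this ⊢
        linarith
      have : Y z ≤ Y z1 := by
        rw [hY1]
        have h' := mul_le_mul_of_nonneg_left this ht1
        have e : s1 = 1 - t1 := by linarith
        rw [e]; linarith
      linarith
    rcases k4 with k4 | k4 | k4
    · left
      have hyw : Y z1 < 1 := by
        rcases (show Y z1 ≤ 1 by linarith).lt_or_eq with e | e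
        · exact e
        · exact (ncorner w (by rw [e5, k4]) (by rw [e6, e])).elim
      refine ⟨?_, signX (by linarith)⟩
      refine KN.cross_w (v := p) (v' := p') (s := r) (y := Y z1) hd hk hp ?_ hr0 hrlt
        (hx1.trans k4) hy1 (by linarith) hyw
      intro hh
      rcases Sym2.eq_iff.1 hh with ⟨q1, q2⟩ | ⟨q1, q2⟩
      · rw [q1, q2, e5, e7] at hX; linarith
      · rw [q1, q2, e5, e7] at hX; linarith
    · right; left
      have hxu : X z1 < 1 := by
        rcases (show X z1 ≤ 1 by linarith).lt_or_eq with e | e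
        · exact e
        · exact (ncorner u (by rw [e1, e]) (by rw [e2, k4])).elim
      refine ⟨?_, signY (by linarith)⟩
      refine KN.cross_u (v := p) (v' := p') (s := r) (x := X z1) hd hk hp ?_ hr0 hrlt hx1
        (hy1.trans k4) (by linarith) hxu
      intro hh
      rcases Sym2.eq_iff.1 hh with ⟨q1, q2⟩ | ⟨q1, q2⟩
      · rw [q1, q2, e2, e4] at hY; linarith
      · rw [q1, q2, e2, e4] at hY; linarith
    · right; right; left
      have hyw : 0 < Y z1 := by
        rcases k2.eq_or_lt with e | e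
        · exact (ncorner u (by rw [e1]; linarith) (by rw [e2, e])).elim
        · exact e
      have hyw' : Y z1 < 1 := by
        rcases (show Y z1 ≤ 1 by linarith).lt_or_eq with e | e
        · exact e
        · exact (ncorner w (by rw [e5]; linarith) (by rw [e6, e])).elim
      refine ⟨?_, ?_⟩
      · refine KN.cross_s (v := p) (v' := p') (s := r) (t := Y z1) hd hk hp ?_ hr0 hrlt hyw hyw'
          (hx1.trans (by linarith)) hy1
        intro hh
        rcases Sym2.eq_iff.1 hh with ⟨q1, q2⟩ | ⟨q1, q2⟩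
        · rw [q1, q2, e1, e5] at hX
          rw [q1, q2, e2, e6] at hY
          linarith
        · rw [q1, q2, e1, e5] at hX
          rw [q1, q2, e2, e6] at hY
          linarith
      · by_contra hcon
        push Not at hcon
        have q1 : X (f p') + Y (f p') ≤ X z + Y z := by
          rw [hX, hY]
          have := mul_le_mul_of_nonneg_left hcon hs
          have e : s = 1 - t := by linarith
          rw [e] at this ⊢
          linarith
        have q2 : X z1 + Y z1 ≤ X z + Y z := by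
          rw [hX1, hY1]
          have := mul_le_mul_of_nonneg_left q1 ht1
          have e : s1 = 1 - t1 := by linarith
          rw [e]
          linarith
        linarith
  · -- the end of the edge is on the frontier
    right; right; right
    rw [hreq] at hXr hYr
    have : z1 = f p' := h.inj _ _ (by rw [hXr]; ring) (by rw [hYr]; ring)
    rw [this] at hf
    exact Tri_fv h hd hk hf

theorem Tri_thr (h : Fr X Y) (hd : ADraw H (fun v => X (f v)) (fun v => Y (f v)) E F)
    (hk : KN H (fun v => X (f v)) (fun v => Y (f v)) a b u u' w w') {p p' : V} {z : ℂ}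
    (hp : H.Adj p p') (hz : z ∈ segment ℝ (f p) (f p')) (hzA : z ∈ Tri X Y) :
    f p ∈ Tri X Y ∨ f p' ∈ Tri X Y := by
  by_contra hh
  push Not at hh
  obtain ⟨n, n'⟩ := hh
  have hE := hd.E_pos
  have hF := hd.F_pos
  have e1 := hk.Xu
  have e2 := hk.Yu
  have e5 := hk.Xw
  have e6 := hk.Yw

  obtain ⟨s, t, hs, ht, hst, rfl⟩ := hz
  have k1 := Tri_exit h hd hk hp hs ht hst hzA n'
  have hzA' : t • f p' + s • f p ∈ Tri X Y := by rwa [add_comm]
  have k2 := Tri_exit h hd hk hp.symm ht hs (by linarith) hzA' n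
  obtain ⟨g1, g2, g3⟩ := hzA
  rw [h.aX' _ _ _ _ hst] at g1 g3
  rw [h.aY' _ _ _ _ hst] at g2 g3
  have es : s = 1 - t := by linarith
  -- a direction with `E dX = F dY`
  have dir : ∀ x y : ℝ, E * x = F * y → (0 ≤ x ∧ 0 ≤ y) ∨ (x ≤ 0 ∧ y ≤ 0) := by
    intro x y hxy
    rcases le_total 0 x with hx | hx
    · left
      refine ⟨hx, ?_⟩
      by_contra hy
      push Not at hy
      have := mul_neg_of_pos_of_neg hF hy
      have := mul_nonneg hE.le hx
      linarith
    · right
      refine ⟨hx, ?_⟩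
      by_contra hy
      push Not at hy
      have := mul_pos hF hy
      have := mul_nonpos_of_nonneg_of_nonpos hE.le hx
      linarith
  have z0 : ∀ x y : ℝ, E * x = F * y → x = 0 → y = 0 := by
    intro x y hxy hx
    rw [hx, mul_zero] at hxy
    exact (mul_eq_zero.1 hxy.symm).resolve_left hF.ne'
  have z0' : ∀ x y : ℝ, E * x = F * y → y = 0 → x = 0 := by
    intro x y hxy hy
    rw [hy, mul_zero] at hxy
    exact (mul_eq_zero.1 hxy).resolve_left hE.ne'
  rcases k1 with ⟨a1, a2⟩ | ⟨a1, a2⟩ | ⟨a1, a2⟩ | a1 | a1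
  · rcases k2 with ⟨b1, b2⟩ | ⟨b1, b2⟩ | ⟨b1, b2⟩ | b1 | b1
    · linarith
    · linarith
    · have := z0' _ _ b1 (by linarith); linarith
    · rw [a1, b1, e6] at g3
      rw [b1] at g1
      linarith
    · rw [a1, b1, e2] at g2
      linarith
  · rcases k2 with ⟨b1, b2⟩ | ⟨b1, b2⟩ | ⟨b1, b2⟩ | b1 | b1
    · linarith
    · linarith
    · have := z0 _ _ b1 (by linarith); linarith
    · rw [a1, b1, e5] at g1
      linarith
    · rw [a1, b1, e1] at g3
      rw [b1] at g2
      linarith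
  · rcases k2 with ⟨b1, b2⟩ | ⟨b1, b2⟩ | ⟨b1, b2⟩ | b1 | b1
    · have := z0' _ _ a1 (by linarith); linarith
    · have := z0 _ _ a1 (by linarith); linarith
    · linarith
    · rw [b1, e5, e6] at a2
      rw [b1, e5, e6] at g3
      have := mul_le_mul_of_nonneg_left a2.le ht
      rw [es] at g3
      linarith
    · rw [b1, e1, e2] at a2
      rw [b1, e1, e2] at g3
      have := mul_le_mul_of_nonneg_left a2.le ht
      rw [es] at g3
      linarith
  · rcases k2 with ⟨b1, b2⟩ | ⟨b1, b2⟩ | ⟨b1, b2⟩ | b1 | b1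
    · rw [b1, a1, e6] at g3
      rw [a1] at g1
      linarith
    · rw [a1, e5] at g1 b1
      rw [b1] at g1
      linarith
    · rw [a1, e5, e6] at b2
      rw [a1, e5, e6] at g3
      have := mul_le_mul_of_nonneg_left b2.le hs
      rw [es] at this g3
      linarith
    · rw [a1, b1] at hp
      exact H.irrefl hp
    · rw [a1, b1, e1, e5, e2, e6] at g3
      linarith
  · rcases k2 with ⟨b1, b2⟩ | ⟨b1, b2⟩ | ⟨b1, b2⟩ | b1 | b1
    · rw [a1, e2] at g2 b1
      rw [b1] at g2
      linarith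
    · rw [b1, a1, e1] at g3
      rw [a1] at g2
      linarith
    · rw [a1, e1, e2] at b2
      rw [a1, e1, e2] at g3
      have := mul_le_mul_of_nonneg_left b2.le hs
      rw [es] at this g3
      linarith
    · rw [a1, b1, e1, e5, e2, e6] at g3
      linarith
    · rw [a1, b1] at hp
      exact H.irrefl hp

/-- the model cell is a cell -/
theorem Tri_cell {κ : GX → V} (h : Fr X Y)
    (hd : ADraw H (fun v => X (f v)) (fun v => Y (f v)) E F)
    (hk : KN H (fun v => X (f v)) (fun v => Y (f v)) a b u u' w w')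
    (cu : Cor κ u) (cu' : Cor κ u') (cw : Cor κ w) (cw' : Cor κ w') :
    KCell H f κ (Tri X Y) w u := by
  have hb := hk.b_pos
  have e1 := hk.Xu
  have e2 := hk.Yu
  have e5 := hk.Xw
  have e6 := hk.Yw
  have e7 := hk.Xw'
  have e8 := hk.Yw'

  -- a point of the cell
  obtain ⟨c, hc⟩ : ∃ c, c ∈ Tri X Y := by
    refine ⟨(1 - 1 / 2 : ℝ) • (f u) + (1 / 2 : ℝ) • ((1 - 1 / (2 * (1 + b)) : ℝ) • (f w) +
      (1 / (2 * (1 + b)) : ℝ) • (f w')), ?_⟩
    have q1 : X ((1 - 1 / (2 * (1 + b)) : ℝ) • (f w) + (1 / (2 * (1 + b)) : ℝ) • (f w')) = 0 := by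
      rw [h.aX, e5, e7]; ring
    have q2 : Y ((1 - 1 / (2 * (1 + b)) : ℝ) • (f w) + (1 / (2 * (1 + b)) : ℝ) • (f w')) =
        1 / 2 := by
      rw [h.aY, e6, e8]; field_simp; ring
    refine ⟨?_, ?_, ?_⟩
    · rw [h.aX, q1, e1]; norm_num
    · rw [h.aY, q2, e2]; norm_num
    · rw [h.aX, h.aY, q1, q2, e1, e2]; norm_num
  refine ⟨Tri_open h, (Tri_convex h).isPreconnected, ?_, ?_, ?_, ?_, ?_⟩
  · exact mem_frontier_Tri h hc (by rw [e5]) (by rw [e6]; norm_num) (by rw [e5, e6]; norm_num)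
      (fun hh => by have := hh.1; rw [e5] at this; exact lt_irrefl _ this)
  · exact mem_frontier_Tri h hc (by rw [e1]; norm_num) (by rw [e2]) (by rw [e1, e2]; norm_num)
      (fun hh => by have := hh.2.1; rw [e2] at this; exact lt_irrefl _ this)
  · intro z hz
    rcases Tri_fr h hk hz with h5 | h5 | h5
    · exact ⟨w, w', cw, cw', hk.ww', h5⟩
    · exact ⟨u, u', cu, cu', hk.uu', h5⟩
    · exact ⟨u, w, cu, cw, hk.uw, h5⟩
  · exact fun v hv => Tri_fv h hd hk hv
  · exact fun p p' z hp hz hzA => Tri_thr h hd hk hp hz hzA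

end

/-! ### reflections -/

theorem KCell.symm {H : SimpleGraph V} {f : V → ℂ} {κ : GX → V} {A : Set ℂ} {x y : V}
    (h : KCell H f κ A x y) : KCell H f κ A y x :=
  ⟨h.op, h.pc, h.hy, h.hx, h.fr, fun v hv => (h.fv v hv).symm, h.thr⟩

theorem Fr.flip {X Y : ℂ → ℝ} (h : Fr X Y) {b : ℝ} (hb : 0 < b) :
    Fr X (fun z => -Y z / b) where
  cX := h.cX
  cY := h.cY.neg.div_const b
  aX := h.aX
  aY := fun z z' t => by

    rw [h.aY]
    field_simp
    ring
  inj := fun z z' h1 h2 => by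

    refine h.inj z z' h1 ?_
    have : -Y z = -Y z' := by
      field_simp at h2
      linarith
    linarith

theorem ADraw.flip {H : SimpleGraph V} {X Y : V → ℝ} {E F : ℝ} (h : ADraw H X Y E F) {b : ℝ}
    (hb : 0 < b) : ADraw H X (fun v => -Y v / b) E (F * b ^ 2) where
  E_pos := h.E_pos
  F_pos := mul_pos h.F_pos (pow_pos hb 2)
  vtx := fun u v w huv h1 h2 t h3 h4 h5 h6 => by

    refine h.vtx u v w huv h1 h2 t h3 h4 h5 ?_
    field_simp at h6
    linarith
  crs := fun u v x y huv hxy hne s t h1 h2 h3 h4 h5 h6 => by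

    have := h.crs u v x y huv hxy hne s t h1 h2 h3 h4 h5 (by field_simp at h6; linarith)

    rw [← this]
    field_simp
    ring

theorem KN.flip {H : SimpleGraph V} {X Y : V → ℝ} {a b : ℝ} {u u' w w' : V}
    (h : KN H X Y a b u u' w w') (hs : H.Adj u' w') :
    KN H X (fun v => -Y v / b) a (1 / b) u u' w' w where
  a_pos := h.a_pos
  b_pos := div_pos one_pos h.b_pos
  Xu := h.Xu
  Yu := by rw [h.Yu]; simp
  Xu' := h.Xu'
  Yu' := by rw [h.Yu']; simp
  Xw := h.Xw'
  Yw := by rw [h.Yw']; have := h.b_pos; field_simp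
  Xw' := h.Xw
  Yw' := by rw [h.Yw]; ring
  uu' := h.uu'
  ww' := h.ww'.symm
  uw := h.uw'
  uw' := h.uw
  u'w := hs

/-- K1: the cells of a kite -/
theorem gdraw_cells {H : SimpleGraph V} {f : V → ℂ} {κ : GX → V} {M : ℕ}
    {X Y : ℂ → ℝ} {E F a' b' : ℝ} (_hf : IsRAC H f) (hfr : Fr X Y)
    (h : GDraw H (fun v => X (f v)) (fun v => Y (f v)) E F a' b' κ M) :
    KCell H f κ {z | 0 < X z ∧ 0 < Y z ∧ X z + Y z < 1} (κ (.X false)) (κ (.X true)) ∧
      KCell H f κ {z | 0 < X z ∧ Y z < 0 ∧ b' * X z - Y z < b'} (κ (.X true)) (κ (.Y false)) ∧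
      KCell H f κ {z | 0 < Y z ∧ X z < 0 ∧ a' * Y z - X z < a'} (κ (.X false)) (κ (.Y true)) := by
  have c1 : Cor κ (κ (.X false)) := Or.inl rfl
  have c2 : Cor κ (κ (.X true)) := Or.inr (Or.inl rfl)
  have c3 : Cor κ (κ (.Y false)) := Or.inr (Or.inr (Or.inl rfl))
  have c4 : Cor κ (κ (.Y true)) := Or.inr (Or.inr (Or.inr rfl))
  have hb := h.hk.b_pos
  have ha := h.hk.a_pos
  refine ⟨Tri_cell hfr h.hd h.hk c2 c4 c1 c3, ?_, ?_⟩
  · have h1 := (Tri_cell (Fr.flip hfr hb) (ADraw.flip h.hd hb) (KN.flip h.hk h.hs) c2 c4 c3 c1).symm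
    have h2 : Tri X (fun z => -Y z / b') =
        {z | 0 < X z ∧ Y z < 0 ∧ b' * X z - Y z < b'} := by
      ext z
      simp only [Tri, Set.mem_ofPred_eq]
      have q1 : 0 < -Y z / b' ↔ Y z < 0 := by
        rw [lt_div_iff₀ hb]
        constructor <;> intro q <;> linarith
      have q2 : X z + -Y z / b' < 1 ↔ b' * X z - Y z < b' := by
        have : X z + -Y z / b' = (b' * X z - Y z) / b' := by field_simp; ring
        rw [this, div_lt_one hb]
      rw [q1, q2]
    rwa [h2] at h1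
  · have h1 := (Tri_cell (Fr.flip hfr.swap ha) (ADraw.flip h.hd.swap ha)
      (KN.flip h.hk.swap h.hs.symm) c1 c3 c4 c2).symm
    have h2 : Tri Y (fun z => -X z / a') =
        {z | 0 < Y z ∧ X z < 0 ∧ a' * Y z - X z < a'} := by
      ext z
      simp only [Tri, Set.mem_ofPred_eq]
      have q1 : 0 < -X z / a' ↔ X z < 0 := by
        rw [lt_div_iff₀ ha]
        constructor <;> intro q <;> linarith
      have q2 : Y z + -X z / a' < 1 ↔ a' * Y z - X z < a' := by
        have : Y z + -X z / a' = (a' * Y z - X z) / a' := by field_simp; ring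
        rw [this, div_lt_one ha]
      rw [q1, q2]
    rwa [h2] at h1

/-! ### the conjugate drawing -/

/-- complex conjugation as a homeomorphism -/
noncomputable def cjH : ℂ ≃ₜ ℂ := Complex.conjLIE.toHomeomorph

theorem cjH_apply (z : ℂ) : cjH z = (starRingEnd ℂ) z := rfl

theorem KCell.conj {H : SimpleGraph V} {f : V → ℂ} {κ : GX → V} {A : Set ℂ} {x y : V}
    (h : KCell H (fun v => (starRingEnd ℂ) (f v)) κ A x y) : KCell H f κ (cjH ⁻¹' A) x y where
  op := h.op.preimage cjH.continuous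
  pc := (cjH.isPreconnected_preimage).2 h.pc
  hx := by rw [← cjH.preimage_frontier]; exact h.hx
  hy := by rw [← cjH.preimage_frontier]; exact h.hy
  fr := by
    intro z hz
    rw [← cjH.preimage_frontier] at hz
    obtain ⟨p, p', c, c', hp, h1⟩ := h.fr _ hz
    refine ⟨p, p', c, c', hp, ?_⟩
    have h2 := conj_segment h1
    simp only [cjH_apply, Complex.conj_conj] at h2
    exact h2
  fv := by
    intro v hv
    rw [← cjH.preimage_frontier] at hv
    exact h.fv v hv
  thr := fun p p' z hp hz hzA => h.thr p p' (cjH z) hp (conj_segment hz) hzA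

theorem GoodK.conj {H : SimpleGraph V} {f : V → ℂ} {a b : V} {κ : GX → V} {M : ℕ}
    {A₀ A₁ A₂ : Set ℂ} (h : GoodK H (fun v => (starRingEnd ℂ) (f v)) a b κ M A₀ A₁ A₂) :
    ∃ B₀ B₁ B₂, GoodK H f a b κ M B₀ B₁ B₂ :=
  ⟨cjH ⁻¹' A₀, cjH ⁻¹' A₁, cjH ⁻¹' A₂, h.c0.conj, h.c1.conj, h.c2.conj, h.core, h.mem, h.nbr,
    h.dd, h.cnt⟩

/-- K1 with the facts about the islands as hypotheses -/
theorem gdraw_good_of {H : SimpleGraph V} {f : V → ℂ} {a b : V} {κ : GX → V} {M : ℕ}
    {X Y : ℂ → ℝ} {E F a' b' : ℝ} (hf : IsRAC H f) (hfr : Fr X Y)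
    (h : GDraw H (fun v => X (f v)) (fun v => Y (f v)) E F a' b' κ M)
    (hcore : ∀ v y, (NE (fun v => X (f v)) (fun v => Y (f v)) v ∨
          SE (fun v => X (f v)) (fun v => Y (f v)) b' v ∨
          NW (fun v => X (f v)) (fun v => Y (f v)) a' v) →
        H.Adj v y → CoreH H a b y → Cor κ y)
    (hmem : ∀ x, Dk M x → NE (fun v => X (f v)) (fun v => Y (f v)) (κ (.v x)))
    (hnbr : ∀ x v, Dk M x → H.Adj (κ (.v x)) v → NE (fun v => X (f v)) (fun v => Y (f v)) v ∨
      SE (fun v => X (f v)) (fun v => Y (f v)) b' v ∨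
      NW (fun v => X (f v)) (fun v => Y (f v)) a' v)
    (hdd : ∀ x y, Dk M x → Dk M y → H.Adj (κ (.v x)) (κ (.v y)) →
      ∃ c : GE, c.isl M ∧ s(κ (.v x), κ (.v y)) = s(κ (c.ends M).1, κ (c.ends M).2))
    (hcnt : ∀ v, ∃ g : GN → Fin 6, ∀ x y, Dk M x → Dk M y → H.Adj (κ (.v x)) v →
      H.Adj (κ (.v y)) v → g x = g y → x = y) :
    ∃ A₀ A₁ A₂, GoodK H f a b κ M A₀ A₁ A₂ := by
  obtain ⟨h0, h1, h2⟩ := gdraw_cells hf hfr h
  exact ⟨_, _, _, h0, h1, h2, hcore, hmem, hnbr, hdd, hcnt⟩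

end Pool.Agent.Helper74.DG2
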