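import Pool.Agent.Helper74.DG2.Part3

/-!
# Dark islands: the layout exists
-/

set_option autoImplicit false

namespace Pool.Agent.Helper74.DG2

open Pool.Agent.Helper18.RAC Complex

/-- the type of the names used in a grid of order `M` -/
abbrev GT (M : ℕ) : Type :=
  (Bool × Fin (2 * M)) ⊕ ((Bool × Fin M) ⊕ ((Bool × (Fin (2 * M - 1) × Bool)) ⊕
    (Bool ⊕ ((Fin M ⊕ Fin (M - 1)) ⊕ (Fin (M - 3) × Fin (M - 3))))))

/-- the name -/
def GT.name {M : ℕ} : GT M → GN
  | .inl (σ, j) => .P σ j
  | .inr (.inl (σ, c)) => .U σ c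
  | .inr (.inr (.inl (σ, j, ε))) => .C σ j ε
  | .inr (.inr (.inr (.inl ε))) => .Q ε
  | .inr (.inr (.inr (.inr (.inl (.inl c))))) => .D c 0
  | .inr (.inr (.inr (.inr (.inl (.inr r))))) => .D 0 (r + 1)
  | .inr (.inr (.inr (.inr (.inr (i, j))))) =>
    if (i : ℕ) + j + 4 ≤ M then .u (i + 1) (j + 1) else .l (M - 3 - i) (M - 3 - j)

theorem GT.name_inj {M : ℕ} : Function.Injective (GT.name (M := M)) := by
  rintro (⟨σ, j⟩ | ⟨σ, c⟩ | ⟨σ, j, ε⟩ | ε | (c | r) | ⟨i, j⟩)
    (⟨σ', j'⟩ | ⟨σ', c'⟩ | ⟨σ', j', ε'⟩ | ε' | (c' | r') | ⟨i', j'⟩) h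
  all_goals simp only [GT.name] at h
  all_goals try split_ifs at h
  all_goals first
    | (exfalso; cases h; done)
    | skip
  · simp only [GN.P.injEq, Fin.val_inj] at h
    simp [h]
  · simp only [GN.U.injEq, Fin.val_inj] at h
    simp [h]
  · simp only [GN.C.injEq, Fin.val_inj] at h
    simp [h]
  · simp only [GN.Q.injEq] at h
    simp [h]
  · simp only [GN.D.injEq, Fin.val_inj, and_true] at h
    simp [h]
  · simp only [GN.D.injEq] at h
    omega
  · simp only [GN.D.injEq] at h
    omega
  · simp only [GN.D.injEq] at h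
    have : r = r' := Fin.ext (by omega)
    rw [this]
  · simp only [GN.u.injEq] at h
    have h1 : i = i' := Fin.ext (by omega)
    have h2 : j = j' := Fin.ext (by omega)
    rw [h1, h2]
  · simp only [GN.l.injEq] at h
    have h1 : i = i' := Fin.ext (by omega)
    have h2 : j = j' := Fin.ext (by omega)
    rw [h1, h2]

theorem GT.exists_name {M : ℕ} (x : GN) (hx : x.ok M) : ∃ g : GT M, GT.name g = x := by
  cases x with
  | P σ j => exact ⟨.inl (σ, ⟨j, hx⟩), rfl⟩
  | U σ c => exact ⟨.inr (.inl (σ, ⟨c, hx⟩)), rfl⟩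
  | C σ j ε => exact ⟨.inr (.inr (.inl (σ, ⟨j, by have : j + 1 < 2 * M := hx; omega⟩, ε))), rfl⟩
  | Q ε => exact ⟨.inr (.inr (.inr (.inl ε))), rfl⟩
  | D c r =>
    obtain ⟨h1, h2, h3⟩ := hx
    by_cases hr : r = 0
    · subst hr
      exact ⟨.inr (.inr (.inr (.inr (.inl (.inl ⟨c, h1⟩))))), rfl⟩
    · have hc : c = 0 := by omega
      subst hc
      refine ⟨.inr (.inr (.inr (.inr (.inl (.inr ⟨r - 1, by omega⟩))))), ?_⟩
      simp only [GT.name]
      congr 1
      omega
  | u k m =>
    obtain ⟨h1, h2, h3⟩ := hx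
    refine ⟨.inr (.inr (.inr (.inr (.inr (⟨k - 1, by omega⟩, ⟨m - 1, by omega⟩))))), ?_⟩
    simp only [GT.name]
    rw [if_pos (by omega)]
    congr 1 <;> omega
  | l k m =>
    obtain ⟨h1, h2, h3⟩ := hx
    refine ⟨.inr (.inr (.inr (.inr (.inr (⟨M - 3 - k, by omega⟩, ⟨M - 3 - m, by omega⟩))))), ?_⟩
    simp only [GT.name]
    rw [if_neg (by omega)]
    congr 1 <;> omega

theorem GT.name_ok {M : ℕ} (g : GT M) : (GT.name g).ok M := by
  rcases g with ⟨σ, j⟩ | ⟨σ, c⟩ | ⟨σ, j, ε⟩ | ε | (c | r) | ⟨i, j⟩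
  · exact j.2
  · exact c.2
  · have := j.2
    change (j : ℕ) + 1 < 2 * M
    omega
  · trivial
  · exact ⟨c.2, by have := c.2; omega, Or.inr rfl⟩
  · exact ⟨by have := r.2; omega, by have := r.2; omega, Or.inl rfl⟩
  · have hi := i.2
    have hj := j.2
    simp only [GT.name]
    split_ifs with h
    · exact ⟨by omega, by omega, by omega⟩
    · exact ⟨by omega, by omega, by omega⟩

theorem GT.card (M : ℕ) (hM : 5 ≤ M) : Fintype.card (GT M) = M ^ 2 + 10 * M + 6 := by
  simp only [GT, Fintype.card_sum, Fintype.card_prod, Fintype.card_fin, Fintype.card_bool]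
  obtain ⟨k, rfl⟩ : ∃ k, M = k + 3 := ⟨M - 3, by omega⟩
  have h1 : 2 * (k + 3) - 1 = 2 * k + 5 := by omega
  have h2 : k + 3 - 1 = k + 2 := by omega
  have h3 : k + 3 - 3 = k := by omega
  rw [h1, h2, h3]
  ring

open Classical in
/-- the element with a given name -/
noncomputable def GT.dec (M : ℕ) (x : GN) : GT M :=
  if h : ∃ g : GT M, GT.name g = x then h.choose else .inr (.inr (.inr (.inl true)))

theorem GT.name_dec {M : ℕ} {x : GN} (hx : x.ok M) : GT.name (GT.dec M x) = x := by
  have h := GT.exists_name x hx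
  rw [GT.dec, dif_pos h]
  exact h.choose_spec

theorem GT.dec_name {M : ℕ} (g : GT M) : GT.dec M (GT.name g) = g :=
  GT.name_inj (GT.name_dec (GT.name_ok g))

/-- the layout exists -/
theorem exists_layD {n m K M : ℕ} (hm : K + 2 ≤ m) (hM : 5 ≤ M)
    (hn : 2 + m + K * (M ^ 2 + 10 * M + 6) = n) :
    ∃ (a b : Fin n) (p : ℕ → Fin n) (κ : ℕ → GX → Fin n), LayD a b p κ m K M := by
  classical
  have hm0 : 0 < m := by omega
  have hcard : Fintype.card (Bool ⊕ (Fin m ⊕ (Fin K × GT M))) = n := by
    rw [Fintype.card_sum, Fintype.card_sum, Fintype.card_prod, GT.card M hM, Fintype.card_bool,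
      Fintype.card_fin, Fintype.card_fin, ← hn]
    ring
  let e : (Bool ⊕ (Fin m ⊕ (Fin K × GT M))) ≃ Fin n := Fintype.equivFinOfCardEq hcard
  let a : Fin n := e (.inl true)
  let b : Fin n := e (.inl false)
  let p : ℕ → Fin n := fun j => e (.inr (.inl ⟨j % m, Nat.mod_lt _ hm0⟩))
  let w : ℕ → GN → Fin n := fun i x =>
    if h : i < K then e (.inr (.inr (⟨i, h⟩, GT.dec M x))) else a
  let κ : ℕ → GX → Fin n := fun i y =>
    match y with
    | .X false => if i % 2 = 0 then b else a
    | .X true => p (i + 2)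
    | .Y false => p (i + 1)
    | .Y true => p i
    | .v x => w i x
  have hw : ∀ i (h : i < K) x, w i x = e (.inr (.inr (⟨i, h⟩, GT.dec M x))) := by
    intro i h x
    change (if h : i < K then e (.inr (.inr (⟨i, h⟩, GT.dec M x))) else a) = _
    rw [dif_pos h]
  refine ⟨a, b, p, κ, ?_⟩
  exact
    { ab := by
        intro h
        have := e.injective h
        simp at this
      pa := by
        intro j hj h
        have := e.injective h
        simp at this
      pb := by
        intro j hj h
        have := e.injective h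
        simp at this
      pinj := by
        intro i hi j hj h
        have h1 := e.injective h
        simp only [Sum.inr.injEq, Sum.inl.injEq, Fin.mk.injEq] at h1
        rwa [Nat.mod_eq_of_lt hi, Nat.mod_eq_of_lt hj] at h1
      hm := hm
      hM := hM
      kN := fun i hi => rfl
      kE := fun i hi => rfl
      kW := fun i hi => rfl
      kS := fun i hi => rfl
      nc := by
        intro i hi x hx
        change w i x ≠ a ∧ w i x ≠ b ∧ ∀ j < m, w i x ≠ p j
        rw [hw i hi x]
        refine ⟨?_, ?_, ?_⟩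
        · intro h
          have := e.injective h
          simp at this
        · intro h
          have := e.injective h
          simp at this
        · intro j hj h
          have := e.injective h
          simp at this
      kinj := by
        intro i hi i' hi' x y hx hy h
        change w i x = w i' y at h
        rw [hw i hi x, hw i' hi' y] at h
        have h1 := e.injective h
        simp only [Sum.inr.injEq, Prod.mk.injEq, Fin.mk.injEq] at h1
        refine ⟨h1.1, ?_⟩
        rw [← GT.name_dec hx, ← GT.name_dec hy, h1.2]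
      cov := by
        intro v
        obtain ⟨u, rfl⟩ := e.surjective v
        rcases u with (_ | _) | j | ⟨i, g⟩
        · exact Or.inr (Or.inl rfl)
        · exact Or.inl rfl
        · refine Or.inr (Or.inr (Or.inl ⟨j, j.2, ?_⟩))
          change _ = e _
          congr 3
          exact Fin.ext (Nat.mod_eq_of_lt j.2).symm
        · refine Or.inr (Or.inr (Or.inr ⟨i, i.2, GT.name g, GT.name_ok g, ?_⟩))
          change _ = w i (GT.name g)
          rw [hw i i.2, GT.dec_name] }

end Pool.Agent.Helper74.DG2
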